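import Pool.Agent.Helper25.SignedMin.Grp

/-!
# The core classification
-/

open Finset
open scoped Pointwise

namespace Pool.Agent.Helper25.SignedMin

open Pool.Agent.Helper23

/-! ### Arithmetic of `cdiv` and `fval` -/

lemma cdiv_le_iff {m d k : ℕ} (hd : 0 < d) : cdiv m d ≤ k ↔ m ≤ d * k := by
  unfold cdiv
  rw [← Nat.lt_succ_iff, Nat.div_lt_iff_lt_mul hd, Nat.succ_mul, mul_comm k d]
  omega

lemma le_mul_cdiv {m d : ℕ} (hd : 0 < d) : m ≤ d * cdiv m d := (cdiv_le_iff hd).1 le_rfl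

lemma cdiv_pos {m d : ℕ} (hm : 0 < m) (hd : 0 < d) : 1 ≤ cdiv m d := by
  by_contra h
  have h0 : cdiv m d ≤ 0 := by omega
  rw [cdiv_le_iff hd] at h0
  omega

lemma cdiv_eq_one {m d : ℕ} (hm : 0 < m) (hd : m ≤ d) : cdiv m d = 1 := by
  have hd0 : 0 < d := by omega
  have h1 := cdiv_pos hm hd0
  have h2 : cdiv m d ≤ 1 := by rw [cdiv_le_iff hd0]; omega
  omega

lemma fval_eq {m h d : ℕ} (hm : 0 < m) (hd : 0 < d) :
    fval m h d = d * (h * (cdiv m d - 1) + 1) := by
  unfold fval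
  have h1 := cdiv_pos hm hd
  obtain ⟨t, ht⟩ : ∃ t, cdiv m d = t + 1 := ⟨cdiv m d - 1, by omega⟩
  rw [ht, Nat.mul_add, Nat.mul_one, Nat.add_sub_cancel, Nat.add_sub_cancel, mul_comm]

lemma fval_of_le {m h d : ℕ} (hm : 0 < m) (hd : m ≤ d) : fval m h d = d := by
  rw [fval_eq hm (by omega), cdiv_eq_one hm hd]; simp

lemma fval_le {m h d X : ℕ} (hm : 0 < m) (hd : 0 < d) (hX : m ≤ d * X) :
    fval m h d ≤ d * (h * (X - 1) + 1) := by
  rw [fval_eq hm hd]
  have : cdiv m d ≤ X := (cdiv_le_iff hd).2 hX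
  gcongr

lemma exists_best (n m h : ℕ) (hn : 0 < n) : ∃ d, IsBest n m h d := by
  obtain ⟨d, hd, hmin⟩ := Finset.exists_min_image n.divisors (fun d => fval m h d)
    ⟨1, Nat.one_mem_divisors.2 (by omega)⟩
  refine ⟨d, Nat.dvd_of_mem_divisors hd, fun d' hd' => hmin d' ?_⟩
  exact Nat.mem_divisors.2 ⟨hd', by omega⟩

section
open Classical

variable {G : Type*} [AddCommGroup G] [Fintype G]

/-! ### Symmetric unions of cosets -/

/-- The set of multiples `(2t - (k-1)) • g`, `t < k`. -/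
noncomputable def ap {Q : Type*} [AddCommGroup Q] (g : Q) (k : ℕ) (r : ℕ) : Finset Q :=
  (range (r + 1)).image (fun t : ℕ => ((2 * t : ℤ) - k) • g)

lemma mem_ap {Q : Type*} [AddCommGroup Q] (g : Q) (k r t : ℕ) (ht : t ≤ r) :
    ((2 * t : ℤ) - k) • g ∈ ap g k r := by
  unfold ap
  rw [mem_image]
  exact ⟨t, by rw [mem_range]; omega, rfl⟩

lemma ap_fold {Q : Type*} [AddCommGroup Q] (g : Q) (r : ℕ) (h : ℕ) :
    hfold h (ap g r r) ⊆ ap g (h * r) (h * r) := by
  induction h with
  | zero =>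
    intro x hx
    rw [hfold_zero, mem_singleton] at hx
    unfold ap
    rw [mem_image]
    exact ⟨0, by simp, by rw [hx]; simp⟩
  | succ h ih =>
    intro x hx
    rw [hfold_succ, mem_add] at hx
    obtain ⟨a, ha, y, hy, rfl⟩ := hx
    have hy' := ih hy
    unfold ap at ha hy' ⊢
    rw [mem_image] at ha hy' ⊢
    obtain ⟨t1, ht1, rfl⟩ := ha
    obtain ⟨t2, ht2, rfl⟩ := hy'
    rw [mem_range] at ht1 ht2
    refine ⟨t1 + t2, ?_, ?_⟩
    · rw [mem_range]
      have : (h + 1) * r = h * r + r := by ring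
      omega
    · rw [← add_smul]
      congr 1
      push_cast
      ring

lemma ap_card {Q : Type*} [AddCommGroup Q] (g : Q) (k r : ℕ) : (ap g k r).card ≤ r + 1 := by
  unfold ap
  calc _ ≤ (range (r + 1)).card := card_image_le
    _ = r + 1 := card_range _

lemma ap_card_eq {Q : Type*} [AddCommGroup Q] (g : Q) (r : ℕ)
    (ho : 2 * r < addOrderOf g) : (ap g r r).card = r + 1 := by
  unfold ap
  rw [card_image_of_injOn, card_range]
  intro t ht t' ht' he
  simp only [coe_range, Set.mem_Iio] at ht ht'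
  have h1 : ((2 * t : ℤ) - 2 * t') • g = 0 := by
    have : (2 * t : ℤ) - 2 * t' = ((2 * t : ℤ) - r) - ((2 * t' : ℤ) - r) := by ring
    rw [this, sub_smul, sub_eq_zero]; exact he
  rw [← addOrderOf_dvd_iff_zsmul_eq_zero] at h1
  by_contra hne
  have h2 : ((addOrderOf g : ℕ) : ℤ) ≤ |(2 * t : ℤ) - 2 * t'| := by
    apply Int.le_of_dvd
    · rw [abs_pos]; omega
    · rw [dvd_abs]; exact h1
  have h3 : |(2 * t : ℤ) - 2 * t'| ≤ 2 * r := by
    rw [abs_le]; constructor <;> omega
  omega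

lemma ap_neg {Q : Type*} [AddCommGroup Q] (g : Q) (r : ℕ) : ∀ x ∈ ap g r r, -x ∈ ap g r r := by
  intro x hx
  unfold ap at hx ⊢
  rw [mem_image] at hx ⊢
  obtain ⟨t, ht, rfl⟩ := hx
  rw [mem_range] at ht
  refine ⟨r - t, by rw [mem_range]; omega, ?_⟩
  rw [← neg_smul]
  congr 1
  have : ((r - t : ℕ) : ℤ) = r - t := by rw [Nat.cast_sub (by omega)]
  rw [this]; ring

/-- The union of cosets of `K` lying over `ap g r r`. -/
noncomputable def cosets (K : AddSubgroup G) (g : G) (r : ℕ) : Finset G :=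
  univ.filter (fun x => QuotientAddGroup.mk' K x ∈ ap (QuotientAddGroup.mk' K g) r r)

lemma cosets_neg (K : AddSubgroup G) (g : G) (r : ℕ) :
    ∀ x ∈ cosets K g r, -x ∈ cosets K g r := by
  intro x hx
  unfold cosets at hx ⊢
  rw [mem_filter] at hx ⊢
  refine ⟨mem_univ _, ?_⟩
  rw [map_neg]
  exact ap_neg _ _ _ hx.2

lemma cosets_card (K : AddSubgroup G) (g : G) (r : ℕ)
    (ho : 2 * r < addOrderOf (QuotientAddGroup.mk' K g)) :
    (cosets K g r).card = Nat.card K * (r + 1) := by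
  have := card_pre (QuotientAddGroup.mk' K) (QuotientAddGroup.mk'_surjective K)
    (ap (QuotientAddGroup.mk' K g) r r)
  rw [QuotientAddGroup.ker_mk', ap_card_eq _ _ ho] at this
  unfold cosets
  exact this

lemma cosets_fold (K : AddSubgroup G) (g : G) (r h : ℕ) :
    (hfold h (cosets K g r)).card ≤ Nat.card K * (h * r + 1) := by
  have h1 : hfold h (cosets K g r) ⊆
      univ.filter (fun x => QuotientAddGroup.mk' K x ∈
        ap (QuotientAddGroup.mk' K g) (h * r) (h * r)) := by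
    intro x hx
    rw [mem_filter]
    refine ⟨mem_univ _, ?_⟩
    have h2 : QuotientAddGroup.mk' K x ∈ (hfold h (cosets K g r)).image (QuotientAddGroup.mk' K) :=
      mem_image_of_mem _ hx
    rw [hfold_image] at h2
    apply ap_fold
    apply hfold_mono h _ h2
    intro y hy
    rw [mem_image] at hy
    obtain ⟨z, hz, rfl⟩ := hy
    unfold cosets at hz
    rw [mem_filter] at hz
    exact hz.2
  calc _ ≤ _ := card_le_card h1
    _ = Nat.card K * (ap (QuotientAddGroup.mk' K g) (h * r) (h * r)).card := by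
      have := card_pre (QuotientAddGroup.mk' K) (QuotientAddGroup.mk'_surjective K)
        (ap (QuotientAddGroup.mk' K g) (h * r) (h * r))
      rw [QuotientAddGroup.ker_mk'] at this
      exact this
    _ ≤ Nat.card K * (h * r + 1) := Nat.mul_le_mul_left _ (ap_card _ _ _)

/-! ### Values of `ρ_±` -/

lemma ncard_signed_ge (h : ℕ) (A : Finset G) : (hfold h A).card ≤ (signedSumset h A).ncard := by
  rw [← Set.ncard_coe_finset]
  apply Set.ncard_le_ncard _ (Set.toFinite _)
  intro x hx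
  obtain ⟨c, _, h1, h2⟩ := hfold_subset_signed h A x hx
  exact ⟨c, h1, h2⟩

lemma ncard_signed_le {A B : Finset G} (hB : ∀ b ∈ B, -b ∈ B) (hAB : A ⊆ B) (h : ℕ) :
    (signedSumset h A).ncard ≤ (hfold h B).card := by
  rw [← Set.ncard_coe_finset]
  exact Set.ncard_le_ncard (signed_subset_hfold hB hAB h) (Set.toFinite _)

lemma rho_le {m h : ℕ} (A : Finset G) (hA : A.card = m) :
    rhoPM G m h ≤ (signedSumset h A).ncard := Nat.sInf_le ⟨A, hA, rfl⟩

lemma lower {m h : ℕ} (hm : 0 < m) (hh : 0 < h) (A : Finset G) (hA : A.card = m) :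
    ∃ d, d ∣ Nat.card G ∧ fval m h d ≤ (hfold h A).card := by
  obtain ⟨h', rfl⟩ : ∃ h', h = h' + 1 := ⟨h - 1, by omega⟩
  have hne : A.Nonempty := by rw [← card_pos]; omega
  obtain ⟨H, h1, h2⟩ := fold_bound A hne h'
  refine ⟨Nat.card H, AddSubgroup.card_addSubgroup_dvd_card H, ?_⟩
  refine le_trans (fval_le hm Nat.card_pos ?_) h2
  rw [← hA]; exact h1

/-- A divisor `d` is *realised* if `d` is the order of a subgroup `K` and there is a `g` such that
the subgroup generated by `K` and `g` has at least `m` elements. -/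
def Realised (G : Type*) [AddCommGroup G] (m d : ℕ) : Prop :=
  ∃ (K : AddSubgroup G) (g : G), Nat.card K = d ∧
    m ≤ d * addOrderOf (QuotientAddGroup.mk' K g)

lemma order_big {m h d : ℕ} (hm : 0 < m) (hh : 2 ≤ h) (hd : IsBest (Nat.card G) m h d)
    (K : AddSubgroup G) (g : G) (hK : Nat.card K = d)
    (ho : m ≤ d * addOrderOf (QuotientAddGroup.mk' K g)) :
    2 * (cdiv m d - 1) < addOrderOf (QuotientAddGroup.mk' K g) := by
  set o := addOrderOf (QuotientAddGroup.mk' K g) with hodef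
  have hd0 : 0 < d := by rw [← hK]; exact Nat.card_pos
  have hdvd : d * o ∣ Nat.card G := by
    rw [AddSubgroup.card_eq_card_quotient_mul_card_addSubgroup K, hK, mul_comm d o]
    exact Nat.mul_dvd_mul_right (addOrderOf_dvd_natCard _) _
  have h1 := hd.2 _ hdvd
  rw [fval_of_le hm ho, fval_eq hm hd0] at h1
  have h2 := Nat.le_of_mul_le_mul_left h1 hd0
  have h3 : 2 * (cdiv m d - 1) ≤ h * (cdiv m d - 1) := Nat.mul_le_mul_right _ hh
  omega

lemma rho_eq {m h d : ℕ} (hm : 0 < m) (hmn : m ≤ Nat.card G) (hh : 2 ≤ h)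
    (hd : IsBest (Nat.card G) m h d) (hr : ∃ d', IsBest (Nat.card G) m h d' ∧ Realised G m d') :
    rhoPM G m h = fval m h d := by
  apply le_antisymm
  · obtain ⟨d', hd', K, g, hK, ho⟩ := hr
    have hd0 : 0 < d' := by rw [← hK]; exact Nat.card_pos
    have hle : fval m h d' ≤ fval m h d := hd'.2 d hd.1
    refine le_trans ?_ hle
    have hbig := order_big hm hh hd' K g hK ho
    have hpos := cdiv_pos hm hd0
    have hcard := cosets_card K g (cdiv m d' - 1) hbig
    have hmle : m ≤ (cosets K g (cdiv m d' - 1)).card := by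
      rw [hcard, hK, show cdiv m d' - 1 + 1 = cdiv m d' by omega]
      exact le_mul_cdiv hd0
    obtain ⟨A, hA, hAc⟩ := exists_subset_card_eq hmle
    calc rhoPM G m h ≤ (signedSumset h A).ncard := rho_le A hAc
      _ ≤ (hfold h (cosets K g (cdiv m d' - 1))).card := ncard_signed_le (cosets_neg _ _ _) hA h
      _ ≤ Nat.card K * (h * (cdiv m d' - 1) + 1) := cosets_fold _ _ _ _
      _ = fval m h d' := by rw [hK, fval_eq hm hd0]
  · have hmle : m ≤ (univ : Finset G).card := by
      rw [Finset.card_univ, ← Nat.card_eq_fintype_card]; exact hmn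
    obtain ⟨A0, _, hA0⟩ := exists_subset_card_eq hmle
    unfold rhoPM
    refine le_csInf ⟨(signedSumset h A0).ncard, A0, hA0, rfl⟩ ?_
    rintro k ⟨A, hA, rfl⟩
    obtain ⟨d', hd', hle⟩ := lower hm (by omega : 0 < h) A hA
    exact (hd.2 d' hd').trans (hle.trans (ncard_signed_ge h A))

end

end Pool.Agent.Helper25.SignedMin
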