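import Mathlib

/-!
# Signed sumsets and exceptional minimisers: definitions
-/

namespace Pool.Agent.Helper25.SignedMin

/-- The `h`-fold signed sumset `h_± A`: all `∑_{a ∈ A} c_a a` with integers `c_a` such that
`∑_{a ∈ A} |c_a| = h`. -/
def signedSumset {G : Type*} [AddCommGroup G] (h : ℕ) (A : Finset G) : Set G :=
  {g | ∃ c : G → ℤ, (∑ a ∈ A, |c a| = (h : ℤ)) ∧ ∑ a ∈ A, c a • a = g}

/-- `ρ_±(G, m, h)`: the least size of `h_± A` over the `m`-subsets `A` of `G`. -/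
noncomputable def rhoPM (G : Type*) [AddCommGroup G] (m h : ℕ) : ℕ :=
  sInf {k | ∃ A : Finset G, A.card = m ∧ (signedSumset h A).ncard = k}

/-- `A = -A`. -/
def IsSymmetric {G : Type*} [AddCommGroup G] (A : Finset G) : Prop := ∀ a ∈ A, -a ∈ A

/-- `A` is not symmetric, but `A ∖ {a}` is symmetric for some `a ∈ A`. -/
def IsNearSymmetric {G : Type*} [AddCommGroup G] (A : Finset G) : Prop :=
  ¬ IsSymmetric A ∧ ∃ a ∈ A, ∀ b ∈ A, b ≠ a → (-b ∈ A ∧ -b ≠ a)

/-- `A ∩ (-A) = ∅`. -/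
def IsAsymmetric {G : Type*} [AddCommGroup G] (A : Finset G) : Prop := ∀ a ∈ A, -a ∉ A

/-- Some `m`-subset of `G` that is neither symmetric nor near-symmetric nor asymmetric attains
the minimum `ρ_±(G, m, h)`. -/
def HasExceptionalMinimiser (G : Type*) [AddCommGroup G] (m h : ℕ) : Prop :=
  ∃ A : Finset G, A.card = m ∧ ¬ IsSymmetric A ∧ ¬ IsNearSymmetric A ∧ ¬ IsAsymmetric A ∧
    (signedSumset h A).ncard = rhoPM G m h

/-- `⌈m / d⌉`. -/
def cdiv (m d : ℕ) : ℕ := (m + d - 1) / d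

/-- `f_d(m, h) = (h ⌈m/d⌉ - h + 1) d`. -/
def fval (m h d : ℕ) : ℕ := (h * cdiv m d - h + 1) * d

/-- `d` is a divisor of `n` at which `f_d(m, h)` is as small as possible, that is,
`f_d(m, h) = min_{d' ∣ n} f_{d'}(m, h)`. -/
def IsBest (n m h d : ℕ) : Prop := d ∣ n ∧ ∀ d', d' ∣ n → fval m h d ≤ fval m h d'

end Pool.Agent.Helper25.SignedMin
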