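import Mathlib
import Pool.Agent.Helper23.Kneser

/-!
# Iterated sumsets and Kneser's bound for them
-/

open Finset
open scoped Pointwise

namespace Pool.Agent.Helper25.SignedMin

open Pool.Agent.Helper23

section
open Classical

variable {G : Type*} [AddCommGroup G]

/-- The ordinary `h`-fold sumset. -/
noncomputable def hfold : ℕ → Finset G → Finset G
  | 0, _ => {0}
  | n + 1, A => A + hfold n A

lemma hfold_zero (A : Finset G) : hfold 0 A = {0} := rfl

lemma hfold_succ (n : ℕ) (A : Finset G) : hfold (n + 1) A = A + hfold n A := rfl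

lemma hfold_add (j l : ℕ) (A : Finset G) : hfold (j + l) A = hfold j A + hfold l A := by
  induction j with
  | zero => rw [Nat.zero_add, hfold_zero, singleton_add]; simp
  | succ j ih =>
    rw [Nat.add_right_comm, hfold_succ, ih, hfold_succ, add_assoc]

lemma hfold_nonempty (n : ℕ) {A : Finset G} (hA : A.Nonempty) : (hfold n A).Nonempty := by
  induction n with
  | zero => rw [hfold_zero]; exact singleton_nonempty 0
  | succ n ih => rw [hfold_succ]; exact hA.add ih

lemma hfold_mono (n : ℕ) {A B : Finset G} (h : A ⊆ B) : hfold n A ⊆ hfold n B := by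
  induction n with
  | zero => rw [hfold_zero, hfold_zero]
  | succ n ih => rw [hfold_succ, hfold_succ]; exact add_subset_add h ih

lemma hfold_image' {Q : Type*} [AddCommGroup Q] (φ : G →+ Q) (n : ℕ) (A : Finset G) :
    (hfold n A).image φ = hfold n (A.image φ) := by
  induction n with
  | zero => rw [hfold_zero, hfold_zero, image_singleton, map_zero]
  | succ n ih =>
    rw [hfold_succ, hfold_succ, ← ih]
    exact image_add φ

lemma hfold_image {Q : Type*} [AddCommGroup Q] [inst : DecidableEq Q] (φ : G →+ Q) (n : ℕ)
    (A : Finset G) : (hfold n A).image φ = hfold n (A.image φ) := by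
  have e : inst = fun a b => Classical.propDecidable (a = b) := Subsingleton.elim _ _
  subst e
  exact hfold_image' φ n A

lemma mem_hfold_neg {B : Finset G} (hB : ∀ b ∈ B, -b ∈ B) (n : ℕ) :
    ∀ x ∈ hfold n B, -x ∈ hfold n B := by
  induction n with
  | zero => intro x hx; rw [hfold_zero, mem_singleton] at hx ⊢; rw [hx, neg_zero]
  | succ n ih =>
    intro x hx
    rw [hfold_succ, mem_add] at hx ⊢
    obtain ⟨b, hb, y, hy, rfl⟩ := hx
    exact ⟨-b, hB b hb, -y, ih y hy, by rw [neg_add]⟩

lemma nsmul_mem_hfold {A : Finset G} {a : G} (ha : a ∈ A) (n : ℕ) : n • a ∈ hfold n A := by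
  induction n with
  | zero => rw [zero_smul, hfold_zero, mem_singleton]
  | succ n ih => rw [succ_nsmul', hfold_succ]; exact add_mem_add ha ih

lemma per_add {H : AddSubgroup G} {A C : Finset G} (h : Per H C) : Per H (A + C) := by
  intro x hx k hk
  rw [mem_add] at hx
  obtain ⟨a, ha, c, hc, rfl⟩ := hx
  rw [add_assoc]
  exact add_mem_add ha (h c hc k hk)

variable [Fintype G]

lemma aper (X : Finset G) (hX : X.Nonempty) (h : ℕ)
    (hap : ∀ H : AddSubgroup G, Per H (hfold (h + 1) X) → H = ⊥) :
    (h + 1) * X.card ≤ (hfold (h + 1) X).card + h := by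
  induction h with
  | zero =>
    have : hfold (0 + 1) X = X := by
      rw [hfold_succ, hfold_zero]
      exact add_zero X
    rw [this]; simp
  | succ h ih =>
    have h1 := ih (fun H hH => hap H (by rw [hfold_succ]; exact per_add hH))
    obtain ⟨H, hH, hc⟩ := kneser X (hfold (h + 1) X) hX (hfold_nonempty _ hX)
    have hb : H = ⊥ := hap H (by rw [hfold_succ]; exact hH)
    subst hb
    have inj : Function.Injective (QuotientAddGroup.mk' (⊥ : AddSubgroup G)) := by
      rw [← AddMonoidHom.ker_eq_bot_iff]; exact QuotientAddGroup.ker_mk' _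
    rw [card_image_of_injective _ inj, card_image_of_injective _ inj,
      card_image_of_injective _ inj, ← hfold_succ] at hc
    have : (h + 1 + 1) * X.card = (h + 1) * X.card + X.card := by ring
    omega

/-- Kneser's bound for iterated sumsets. -/
theorem fold_bound (A : Finset G) (hA : A.Nonempty) (h : ℕ) :
    ∃ H : AddSubgroup G,
      A.card ≤ Nat.card H * (A.image (QuotientAddGroup.mk' H)).card ∧
      Nat.card H * ((h + 1) * ((A.image (QuotientAddGroup.mk' H)).card - 1) + 1)
        ≤ (hfold (h + 1) A).card := by
  have hne : ({H : AddSubgroup G | Per H (hfold (h + 1) A)} : Set (AddSubgroup G)).Nonempty := by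
    refine ⟨⊥, ?_⟩
    intro c hc k hk
    rw [AddSubgroup.mem_bot] at hk
    rw [hk, add_zero]; exact hc
  obtain ⟨H, hH, hmax⟩ := Set.exists_max_image {H : AddSubgroup G | Per H (hfold (h + 1) A)}
    (fun H => Nat.card H) (Set.toFinite _) hne
  refine ⟨H, ?_, ?_⟩
  · have := card_le_image (QuotientAddGroup.mk' H) (QuotientAddGroup.mk'_surjective H) A
    rwa [QuotientAddGroup.ker_mk'] at this
  · set π := QuotientAddGroup.mk' H with hπ
    have hsurj : Function.Surjective π := QuotientAddGroup.mk'_surjective H
    have hker : π.ker = H := QuotientAddGroup.ker_mk' H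
    have hap : ∀ H' : AddSubgroup (G ⧸ H), Per H' (hfold (h + 1) (A.image π)) → H' = ⊥ := by
      intro H' hH'
      have hle : H ≤ H'.comap π := by
        intro x hx
        rw [AddSubgroup.mem_comap]
        have : π x = 0 := by rw [← AddMonoidHom.mem_ker, hker]; exact hx
        rw [this]; exact H'.zero_mem
      have hper : Per (H'.comap π) (hfold (h + 1) A) := by
        intro c hc k hk
        rw [AddSubgroup.mem_comap] at hk
        have h1 : π c ∈ hfold (h + 1) (A.image π) := by
          rw [← hfold_image]; exact mem_image_of_mem _ hc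
        have h2 := hH' _ h1 _ hk
        rw [← hfold_image, mem_image] at h2
        obtain ⟨c', hc', hcc⟩ := h2
        have h3 : (c + k) - c' ∈ H := by
          rw [← hker, AddMonoidHom.mem_ker, map_sub, map_add, hcc, sub_self]
        have := hH c' hc' _ h3
        have e : c' + (c + k - c') = c + k := by abel
        rwa [e] at this
      have hcard := hmax _ hper
      have heq : H'.comap π = H :=
        (AddSubgroup.eq_of_le_of_card_ge hle hcard).symm
      rw [eq_bot_iff]
      intro y hy
      obtain ⟨x, rfl⟩ := hsurj y
      have : x ∈ H := by rw [← heq]; exact hy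
      rw [← hker, AddMonoidHom.mem_ker] at this
      rw [this]; exact AddSubgroup.zero_mem _
    have hXne : (A.image π).Nonempty := hA.image _
    have key := aper (A.image π) hXne h hap
    have hcard : (hfold (h + 1) A).card = Nat.card H * ((hfold (h + 1) A).image π).card := by
      have h5 := card_pre π hsurj ((hfold (h + 1) A).image π)
      rw [hker] at h5
      rw [← h5]
      congr 1
      ext z
      simp only [mem_filter, mem_univ, true_and, mem_image]
      constructor
      · intro hz; exact ⟨z, hz, rfl⟩
      · rintro ⟨c, hc, hcz⟩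
        have h3 : z - c ∈ H := by
          rw [← hker, AddMonoidHom.mem_ker, map_sub, hcz, sub_self]
        have := hH c hc _ h3
        have e : c + (z - c) = z := by abel
        rwa [e] at this
    rw [hcard, hfold_image]
    apply Nat.mul_le_mul_left
    have hpos : 1 ≤ (A.image π).card := hXne.card_pos
    obtain ⟨t, ht⟩ : ∃ t, (A.image π).card = t + 1 := ⟨(A.image π).card - 1, by omega⟩
    rw [ht] at key ⊢
    have : (h + 1) * (t + 1) = (h + 1) * t + (h + 1) := by ring
    simp only [Nat.add_sub_cancel]
    omega

end

end Pool.Agent.Helper25.SignedMin
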