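import Pool.Agent.Helper25.SignedMin.Signed

/-!
# Subgroups of finite abelian groups
-/

open Finset
open scoped Pointwise

namespace Pool.Agent.Helper25.SignedMin

open Pool.Agent.Helper23

lemma card_comap_quot {G : Type*} [AddCommGroup G] [Finite G] (K : AddSubgroup G)
    (L : AddSubgroup (G ⧸ K)) :
    Nat.card (L.comap (QuotientAddGroup.mk' K)) = Nat.card K * Nat.card L := by
  classical
  haveI : Fintype G := Fintype.ofFinite G
  set π := QuotientAddGroup.mk' K with hπ
  have hsurj : Function.Surjective π := QuotientAddGroup.mk'_surjective K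
  have hker : π.ker = K := QuotientAddGroup.ker_mk' K
  have h5 := card_pre π hsurj ((univ : Finset (G ⧸ K)).filter (fun q => q ∈ L))
  rw [hker] at h5
  rw [← card_filter_mem L, ← card_filter_mem (L.comap π)]
  simp only [mem_filter, mem_univ, true_and] at h5
  simp only [AddSubgroup.mem_comap]
  convert h5

/-- A finite abelian group has a subgroup of every order dividing its order. -/
lemma exists_subgroup_card : ∀ (n : ℕ) (G : Type*) [AddCommGroup G] [Finite G],
    Nat.card G = n → ∀ d, d ∣ n → ∃ K : AddSubgroup G, Nat.card K = d := by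
  intro n
  induction n using Nat.strong_induction_on with
  | _ n ih =>
    intro G _ _ hn d hd
    haveI : Fintype G := Fintype.ofFinite G
    have hnpos : 0 < n := by rw [← hn]; exact Nat.card_pos
    rcases Nat.eq_or_lt_of_le (Nat.pos_of_dvd_of_pos hd hnpos) with h1 | h1
    · exact ⟨⊥, by rw [← h1]; simp⟩
    · obtain ⟨p, hp, hpd⟩ := Nat.exists_prime_and_dvd (show d ≠ 1 by omega)
      haveI := Fact.mk hp
      have hpn : p ∣ Nat.card G := by rw [hn]; exact hpd.trans hd
      obtain ⟨x, hx⟩ := exists_prime_addOrderOf_dvd_card' p hpn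
      set Z := AddSubgroup.zmultiples x with hZ
      have hZc : Nat.card Z = p := by rw [hZ, Nat.card_zmultiples, hx]
      have hq : Nat.card G = Nat.card Z * Nat.card (G ⧸ Z) := by
        rw [mul_comm]; exact (AddSubgroup.card_eq_card_quotient_mul_card_addSubgroup Z)
      obtain ⟨d', rfl⟩ := hpd
      rw [hn, hZc] at hq
      have hlt : Nat.card (G ⧸ Z) < n := by
        rw [hq]
        have : 0 < Nat.card (G ⧸ Z) := Nat.card_pos
        nlinarith [hp.two_le]
      have hd' : d' ∣ Nat.card (G ⧸ Z) := by
        rw [hq] at hd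
        exact Nat.dvd_of_mul_dvd_mul_left hp.pos hd
      obtain ⟨K', hK'⟩ := ih _ hlt (G ⧸ Z) rfl d' hd'
      exact ⟨K'.comap (QuotientAddGroup.mk' Z), by rw [card_comap_quot, hZc, hK']⟩

/-- A subgroup can be extended to a subgroup of any order that is a multiple of its order and
divides the order of the group. -/
lemma exists_over {G : Type*} [AddCommGroup G] [Finite G] (H : AddSubgroup G) (d : ℕ)
    (h1 : Nat.card H ∣ d) (h2 : d ∣ Nat.card G) :
    ∃ K : AddSubgroup G, H ≤ K ∧ Nat.card K = d := by
  obtain ⟨e, rfl⟩ := h1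
  have hq : Nat.card G = Nat.card H * Nat.card (G ⧸ H) := by
    rw [mul_comm]; exact (AddSubgroup.card_eq_card_quotient_mul_card_addSubgroup H)
  have he : e ∣ Nat.card (G ⧸ H) := by
    rw [hq] at h2
    exact Nat.dvd_of_mul_dvd_mul_left Nat.card_pos h2
  obtain ⟨K', hK'⟩ := exists_subgroup_card _ (G ⧸ H) rfl e he
  refine ⟨K'.comap (QuotientAddGroup.mk' H), ?_, by rw [card_comap_quot, hK']⟩
  intro x hx
  rw [AddSubgroup.mem_comap]
  have : QuotientAddGroup.mk' H x = 0 := by
    rw [← AddMonoidHom.mem_ker, QuotientAddGroup.ker_mk']; exact hx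
  rw [this]; exact K'.zero_mem

/-- A subgroup of order at least five with an element that is not its own negative contains two
different pairs `± x`, `± y`. -/
lemma two_pairs {G : Type*} [AddCommGroup G] [Finite G] (K : AddSubgroup G)
    (hK : 5 ≤ Nat.card K) (x : G) (hxK : x ∈ K) (hx : -x ≠ x) :
    ∃ y ∈ K, -y ≠ y ∧ y ≠ x ∧ y ≠ -x ∧ y ≠ 0 := by
  classical
  haveI : Fintype G := Fintype.ofFinite G
  obtain ⟨t, htK, ht⟩ : ∃ t ∈ K, t ∉ ({0, x, -x, -x - x} : Finset G) := by
    by_contra hcon
    push Not at hcon
    have : (univ : Finset G).filter (fun g => g ∈ K) ⊆ ({0, x, -x, -x - x} : Finset G) := by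
      intro g hg
      rw [mem_filter] at hg
      exact hcon g hg.2
    have h1 := card_le_card this
    have h2 : ((univ : Finset G).filter (fun g => g ∈ K)).card = Nat.card K := by
      rw [← card_filter_mem K]
    have h3 : ({0, x, -x, -x - x} : Finset G).card ≤ 4 := card_le_four
    omega
  simp only [mem_insert, mem_singleton, not_or] at ht
  obtain ⟨ht0, htx, htnx, ht2⟩ := ht
  by_cases h2 : -t = t
  · refine ⟨x + t, K.add_mem hxK htK, ?_, ?_, ?_, ?_⟩
    · intro h
      apply hx
      rw [neg_add, h2] at h
      exact add_right_cancel h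
    · intro h; apply ht0
      have : x + t = x + 0 := by rw [h, add_zero]
      exact add_left_cancel this
    · intro h; apply ht2
      rw [← h]; abel
    · intro h; apply htnx
      exact (eq_neg_of_add_eq_zero_right h)
  · exact ⟨t, htK, h2, htx, htnx, ht0⟩

/-- If a finite abelian group has no element that differs from its negative, its order is a
power of two. -/
lemma pow_two_of_elementary {G : Type*} [AddCommGroup G] [Finite G] (K : AddSubgroup G)
    (h : ∀ x ∈ K, -x = x) : ∃ j, Nat.card K = 2 ^ j := by
  rcases Nat.eq_two_pow_or_exists_odd_prime_and_dvd (Nat.card K) with ⟨j, hj⟩ | ⟨p, hp, hpd, hodd⟩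
  · exact ⟨j, hj⟩
  · exfalso
    haveI := Fact.mk hp
    obtain ⟨x, hx⟩ := exists_prime_addOrderOf_dvd_card' (G := K) p hpd
    have h2 : (2 : ℕ) • x = 0 := by
      rw [two_nsmul]
      have := h x.1 x.2
      apply Subtype.ext
      rw [AddSubgroup.coe_add, AddSubgroup.coe_zero]
      nth_rewrite 1 [← this]
      exact neg_add_cancel _
    have h3 := addOrderOf_dvd_of_nsmul_eq_zero h2
    rw [hx] at h3
    have h4 := Nat.le_of_dvd (by norm_num) h3
    have h5 := hp.two_le
    have : p = 2 := by omega
    rw [this] at hodd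
    exact absurd hodd (by decide)

end Pool.Agent.Helper25.SignedMin
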