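import Pool.Agent.Helper25.SignedMin.Core

/-!
# The classification of exceptional minimisers
-/

open Finset
open scoped Pointwise

namespace Pool.Agent.Helper25.SignedMin

open Pool.Agent.Helper23

section
open Classical

variable {G : Type*} [AddCommGroup G] [Fintype G]

/-- Choosing an exceptional set inside a symmetric set. -/
lemma pick {B : Finset G} (hB : ∀ b ∈ B, -b ∈ B) {x y z : G} (hx : x ∈ B) (hy : y ∈ B)
    (hz : z ∈ B) (hxx : -x ≠ x) (hyy : -y ≠ y) (hxy : y ≠ x) (hxy' : y ≠ -x)
    (hzx : z ≠ x) (hzx' : z ≠ -x) (hzy : z ≠ y) (hzy' : z ≠ -y) {m : ℕ}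
    (hm : ({x, y, z, -z} : Finset G).card ≤ m) (hmB : m + 2 ≤ B.card) :
    ∃ A : Finset G, A ⊆ B ∧ A.card = m ∧ ¬ IsSymmetric A ∧ ¬ IsNearSymmetric A ∧
      ¬ IsAsymmetric A := by
  have hsub : ({x, y, z, -z} : Finset G) ⊆ (B.erase (-x)).erase (-y) := by
    intro w hw
    simp only [mem_insert, mem_singleton] at hw
    rw [mem_erase, mem_erase]
    rcases hw with rfl | rfl | rfl | rfl
    · refine ⟨?_, fun h => hxx h.symm, hx⟩
      intro h; apply hxy'; rw [h, neg_neg]
    · exact ⟨fun h => hyy h.symm, hxy', hy⟩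
    · exact ⟨hzy', hzx', hz⟩
    · exact ⟨fun h => hzy (neg_injective h), fun h => hzx (neg_injective h), hB z hz⟩
  have hcard : m ≤ ((B.erase (-x)).erase (-y)).card := by
    have h1 := pred_card_le_card_erase (s := B) (a := -x)
    have h2 := pred_card_le_card_erase (s := B.erase (-x)) (a := -y)
    omega
  obtain ⟨A, hA1, hA2, hA3⟩ := exists_subsuperset_card_eq hsub hm hcard
  have memA : ∀ w ∈ ({x, y, z, -z} : Finset G), w ∈ A := fun w hw => hA1 hw
  have hxA : x ∈ A := memA x (by simp)
  have hyA : y ∈ A := memA y (by simp)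
  have hzA : z ∈ A := memA z (by simp)
  have hzA' : -z ∈ A := memA (-z) (by simp)
  have hnx : -x ∉ A := by
    intro h
    have := hA2 h
    rw [mem_erase, mem_erase] at this
    exact this.2.1 rfl
  have hny : -y ∉ A := by
    intro h
    have := hA2 h
    rw [mem_erase] at this
    exact this.1 rfl
  refine ⟨A, ?_, hA3, ?_, ?_, ?_⟩
  · intro w hw
    have := hA2 hw
    rw [mem_erase, mem_erase] at this
    exact this.2.2
  · intro h; exact hnx (h x hxA)
  · rintro ⟨_, a, _, hall⟩
    by_cases hax : x = a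
    · subst hax
      exact hny (hall y hyA hxy).1
    · exact hnx (hall x hxA hax).1
  · intro h; exact h z hzA hzA'

/-- The `2`-part condition. -/
def TwoCond (G : Type*) [AddCommGroup G] (m d : ℕ) : Prop :=
  m ≤ d → (∃ j, d = 2 ^ j) → ∃ x : G, addOrderOf x = 4

lemma no_four {K : AddSubgroup G} {j : ℕ} (hK : Nat.card K = 2 ^ j)
    (h4 : ¬ ∃ x : G, addOrderOf x = 4) : ∀ x ∈ K, (2 : ℕ) • x = 0 := by
  intro x hx
  have h1 : addOrderOf x ∣ 2 ^ j := by
    rw [← hK]
    exact AddSubgroup.addOrderOf_dvd_natCard K hx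
  obtain ⟨i, _, hi⟩ := (Nat.dvd_prime_pow Nat.prime_two).1 h1
  rw [← addOrderOf_dvd_iff_nsmul_eq_zero]
  by_contra hcon
  have hi2 : 2 ≤ i := by
    by_contra hlt
    apply hcon
    rw [hi]
    interval_cases i <;> norm_num
  apply h4
  refine ⟨(2 ^ (i - 2)) • x, ?_⟩
  have hpos : (2 : ℕ) ^ (i - 2) ∣ addOrderOf x := by
    rw [hi]; exact pow_dvd_pow 2 (by omega)
  rw [addOrderOf_nsmul_of_dvd (by positivity) hpos, hi, Nat.pow_div (by omega) (by norm_num)]
  have : i - (i - 2) = 2 := by omega
  rw [this]

/-- Exceptional minimisers give a best divisor with slack two. -/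
theorem forward {m h : ℕ} (hm : 2 ≤ m) (hh : 2 ≤ h)
    (hr : ∃ d', IsBest (Nat.card G) m h d' ∧ rhoPM G m h = fval m h d')
    (hex : HasExceptionalMinimiser G m h) :
    3 ≤ m ∧ ∃ d, IsBest (Nat.card G) m h d ∧ m + 2 ≤ d * cdiv m d ∧ TwoCond G m d := by
  obtain ⟨A, hAm, hs, hn, ha, hmin⟩ := hex
  -- two elements without their negatives
  unfold IsSymmetric at hs
  push Not at hs
  obtain ⟨x, hxA, hnx⟩ := hs
  obtain ⟨y, hyA, hyx, hny⟩ : ∃ y ∈ A, y ≠ x ∧ -y ∉ A := by
    by_contra hcon
    push Not at hcon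
    apply hn
    refine ⟨fun h => hnx (h x hxA), x, hxA, ?_⟩
    intro b hb hbx
    refine ⟨hcon b hb hbx, ?_⟩
    intro h
    apply hnx
    rw [← h, neg_neg]; exact hb
  have ha' := ha
  unfold IsAsymmetric at ha'
  push Not at ha'
  obtain ⟨z, hzA, hnz⟩ := ha'
  constructor
  · -- `x, y, z` are distinct
    have hzx : z ≠ x := by rintro rfl; exact hnx hnz
    have hzy : z ≠ y := by rintro rfl; exact hny hnz
    have : ({x, y, z} : Finset G) ⊆ A := by
      intro w hw
      simp only [mem_insert, mem_singleton] at hw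
      rcases hw with rfl | rfl | rfl <;> assumption
    have h3 : ({x, y, z} : Finset G).card = 3 := by
      rw [card_eq_three]
      exact ⟨x, y, z, hyx.symm, hzx.symm, hzy.symm, rfl⟩
    have := card_le_card this
    omega
  · set B : Finset G := A ∪ A.image (fun a => -a) with hBdef
    have hBmem : ∀ b ∈ B, b ∈ A ∨ -b ∈ A := by
      intro b hb
      rw [hBdef, mem_union, mem_image] at hb
      rcases hb with h | ⟨a, h, rfl⟩
      · exact Or.inl h
      · right; rw [neg_neg]; exact h
    have hBneg : ∀ b ∈ B, -b ∈ B := by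
      intro b hb
      rw [hBdef, mem_union, mem_image] at hb ⊢
      rcases hb with h | ⟨a, h, rfl⟩
      · exact Or.inr ⟨b, h, rfl⟩
      · left; rw [neg_neg]; exact h
    have hAB : A ⊆ B := subset_union_left
    have hBcard : m + 2 ≤ B.card := by
      have h1 : insert (-x) (insert (-y) A) ⊆ B := by
        intro w hw
        rw [mem_insert, mem_insert] at hw
        rcases hw with rfl | rfl | h
        · exact hBneg x (hAB hxA)
        · exact hBneg y (hAB hyA)
        · exact hAB h
      have h2 : (insert (-x) (insert (-y) A)).card = m + 2 := by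
        rw [card_insert_of_notMem, card_insert_of_notMem hny, hAm]
        rw [mem_insert, not_or]
        exact ⟨fun h => hyx (neg_injective h).symm, hnx⟩
      rw [← h2]; exact card_le_card h1
    have hBne : B.Nonempty := ⟨x, hAB hxA⟩
    obtain ⟨h', rfl⟩ : ∃ h', h = h' + 1 := ⟨h - 1, by omega⟩
    obtain ⟨H, h1, h2⟩ := fold_bound B hBne h'
    obtain ⟨d0, hd0, hrho⟩ := hr
    have hsig : (hfold (h' + 1) B).card ≤ (signedSumset (h' + 1) A).ncard := by
      rw [← Set.ncard_coe_finset]
      exact Set.ncard_le_ncard (hfold_sym_subset_signed ha hBmem _) (Set.toFinite _)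
    set d := Nat.card H with hd
    have hdpos : 0 < d := Nat.card_pos
    set X := (B.image (QuotientAddGroup.mk' H)).card with hX
    have hmX : m ≤ d * X := by omega
    have hdvd : d ∣ Nat.card G := AddSubgroup.card_addSubgroup_dvd_card H
    have e1 : fval m (h' + 1) d ≤ d * ((h' + 1) * (X - 1) + 1) := fval_le (by omega) hdpos hmX
    have e2 : fval m (h' + 1) d0 ≤ fval m (h' + 1) d := hd0.2 d hdvd
    have e3 : d * ((h' + 1) * (X - 1) + 1) ≤ fval m (h' + 1) d0 := by
      rw [← hrho, ← hmin]; exact h2.trans hsig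
    have e4 : fval m (h' + 1) d = fval m (h' + 1) d0 := le_antisymm (e1.trans e3) e2
    have e5 : d * ((h' + 1) * (X - 1) + 1) = d * ((h' + 1) * (cdiv m d - 1) + 1) := by
      rw [← fval_eq (by omega) hdpos]
      omega
    have hcp := cdiv_pos (by omega : 0 < m) hdpos
    have hXpos : 1 ≤ X := by rw [hX]; exact (hBne.image _).card_pos
    have e6 : X = cdiv m d := by
      have h5 := Nat.eq_of_mul_eq_mul_left hdpos e5
      have h6 : (h' + 1) * (X - 1) = (h' + 1) * (cdiv m d - 1) := by omega
      have h7 := Nat.eq_of_mul_eq_mul_left (Nat.succ_pos h') h6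
      omega
    refine ⟨d, ⟨hdvd, fun d' hd' => by rw [e4]; exact hd0.2 d' hd'⟩, ?_, ?_⟩
    · rw [← e6]; omega
    · intro hmd ⟨j, hj⟩
      by_contra h4
      have hX1 : X = 1 := by rw [e6]; exact cdiv_eq_one (by omega) hmd
      have hsing : ∀ b ∈ B, ∀ b' ∈ B, QuotientAddGroup.mk' H b = QuotientAddGroup.mk' H b' := by
        intro b hb b' hb'
        have h9 : (B.image (QuotientAddGroup.mk' H)).card ≤ 1 := by rw [← hX]; omega
        rw [card_le_one] at h9
        exact h9 _ (mem_image_of_mem _ hb) _ (mem_image_of_mem _ hb')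
      have hall : ∀ x ∈ H, (2 : ℕ) • x = 0 := no_four (hd ▸ hj) h4
      -- then `-x = x`
      have hxB : x ∈ B := hAB hxA
      have h10 := hsing x hxB (-x) (hBneg x hxB)
      have h11 : x + x ∈ H := by
        have : x - -x ∈ H := by
          rw [← QuotientAddGroup.ker_mk' H, AddMonoidHom.mem_ker, map_sub, h10, sub_self]
        rwa [sub_neg_eq_add] at this
      have h12 := hall _ h11
      have h13 : (4 : ℕ) • x = 0 := by
        have : (4 : ℕ) • x = (2 : ℕ) • (x + x) := by
          rw [← two_nsmul, ← mul_nsmul]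
        rw [this, h12]
      have h14 : addOrderOf x ∣ 4 := addOrderOf_dvd_of_nsmul_eq_zero h13
      have h15 : addOrderOf x ∣ 2 := by
        have h16 : addOrderOf x ≠ 4 := fun h => h4 ⟨x, h⟩
        have h17 : addOrderOf x ≤ 4 := Nat.le_of_dvd (by norm_num) h14
        interval_cases hord : addOrderOf x
        · omega
        · norm_num
        · norm_num
        · omega
        · omega
      have h18 := addOrderOf_dvd_iff_nsmul_eq_zero.1 h15
      apply hnx
      have : -x = x := by
        rw [two_nsmul] at h18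
        exact neg_eq_of_add_eq_zero_left h18
      rw [this]; exact hxA

lemma rho_le_of_dvd {m h c : ℕ} (hc : c ∣ Nat.card G) (hmc : m ≤ c) : rhoPM G m h ≤ c := by
  obtain ⟨L, hL⟩ := exists_subgroup_card _ G rfl c hc
  set B : Finset G := univ.filter (fun g => g ∈ L) with hB
  have memB : ∀ g, g ∈ B ↔ g ∈ L := by intro g; rw [hB, mem_filter]; simp
  have hBneg : ∀ b ∈ B, -b ∈ B := by
    intro b hb; rw [memB] at hb ⊢; exact L.neg_mem hb
  have hBcard : B.card = c := by rw [hB, card_filter_mem, hL]
  have hclosed : ∀ n, hfold n B ⊆ B := by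
    intro n
    induction n with
    | zero =>
      intro w hw
      rw [hfold_zero, mem_singleton] at hw
      rw [memB, hw]; exact L.zero_mem
    | succ n ih =>
      intro w hw
      rw [hfold_succ, mem_add] at hw
      obtain ⟨a, ha, b, hb, rfl⟩ := hw
      rw [memB] at ha ⊢
      exact L.add_mem ha ((memB b).1 (ih hb))
  obtain ⟨A, hAB, hAm⟩ := exists_subset_card_eq (s := B) (n := m) (by omega)
  calc rhoPM G m h ≤ (signedSumset h A).ncard := rho_le A hAm
    _ ≤ (hfold h B).card := ncard_signed_le hBneg hAB h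
    _ ≤ B.card := card_le_card (hclosed h)
    _ = c := hBcard

/-- A realised divisor `d` with `f_d(m, h) = ρ_±(G, m, h)` and slack two gives an exceptional
minimiser; this holds in every finite abelian group. -/
theorem backward {m h d : ℕ} (hm : 3 ≤ m) (hh : 2 ≤ h)
    (hd : fval m h d = rhoPM G m h) (hsl : m + 2 ≤ d * cdiv m d)
    (hreal : Realised G m d) (h2 : TwoCond G m d) :
    HasExceptionalMinimiser G m h := by
  have hdn : d ∣ Nat.card G := by
    obtain ⟨K, _, hK, _⟩ := hreal
    rw [← hK]; exact AddSubgroup.card_addSubgroup_dvd_card K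
  have hd0 : 0 < d := Nat.pos_of_dvd_of_pos hdn Nat.card_pos
  -- a minimiser is obtained from any suitable subset of a small symmetric set
  have final : ∀ B : Finset G, (∀ b ∈ B, -b ∈ B) → (hfold h B).card ≤ fval m h d →
      ∀ A : Finset G, A ⊆ B → A.card = m → ¬ IsSymmetric A → ¬ IsNearSymmetric A →
      ¬ IsAsymmetric A → HasExceptionalMinimiser G m h := by
    intro B hB hBc A hAB hAm h1 h2 h3
    refine ⟨A, hAm, h1, h2, h3, ?_⟩
    apply le_antisymm _ (rho_le A hAm)
    rw [← hd]
    exact (ncard_signed_le hB hAB h).trans hBc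
  rcases Nat.lt_or_ge d m with hdm | hmd
  · -- at least two cosets
    obtain ⟨K, g, hK, ho⟩ := hreal
    have hbig : 2 * (cdiv m d - 1) < addOrderOf (QuotientAddGroup.mk' K g) := by
      have hdvd : d * addOrderOf (QuotientAddGroup.mk' K g) ∣ Nat.card G := by
        rw [AddSubgroup.card_eq_card_quotient_mul_card_addSubgroup K, hK, mul_comm d]
        exact Nat.mul_dvd_mul_right (addOrderOf_dvd_natCard _) _
      have h1 := rho_le_of_dvd (h := h) hdvd ho
      rw [← hd, fval_eq (by omega) hd0] at h1
      have h2 := Nat.le_of_mul_le_mul_left h1 hd0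
      have h3 : 2 * (cdiv m d - 1) ≤ h * (cdiv m d - 1) := Nat.mul_le_mul_right _ hh
      omega
    set r := cdiv m d - 1 with hr
    set π := QuotientAddGroup.mk' K with hπ
    have hsurj : Function.Surjective π := QuotientAddGroup.mk'_surjective K
    have hker : π.ker = K := QuotientAddGroup.ker_mk' K
    have hc2 : 2 ≤ cdiv m d := by
      by_contra hlt
      have : cdiv m d ≤ 1 := by omega
      rw [cdiv_le_iff hd0] at this
      omega
    have hlow : d * r < m := by
      by_contra hcon
      have : cdiv m d ≤ r := (cdiv_le_iff hd0).2 (by omega)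
      omega
    have hdr : d * cdiv m d = d * r + d := by
      rw [show cdiv m d = r + 1 by omega]; ring
    have hd3 : 3 ≤ d := by omega
    have hm4 : 4 ≤ m := by
      have : d * 1 ≤ d * r := Nat.mul_le_mul_left _ (by omega)
      omega
    have hcard := cosets_card K g r hbig
    -- the top coset
    set T : Finset G := univ.filter (fun x => π x = (r : ℤ) • π g) with hT
    have hTc : T.card = d := by
      have := card_fib π hsurj ((r : ℤ) • π g)
      rw [hker, hK] at this
      rw [hT]
      convert this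
    have hTB : T ⊆ cosets K g r := by
      intro x hx
      rw [hT, mem_filter] at hx
      unfold cosets
      rw [mem_filter]
      refine ⟨mem_univ _, ?_⟩
      have h1 := mem_ap (π g) r r r le_rfl
      have h2 : ((2 * r : ℤ) - r) = r := by ring
      rw [h2, ← hx.2] at h1
      exact h1
    have hTn : ∀ x ∈ T, ∀ y ∈ T, x ≠ -y := by
      intro x hx y hy hxy
      rw [hT, mem_filter] at hx hy
      have h1 : π x = -(π y) := by rw [hxy, map_neg]
      rw [hx.2, hy.2] at h1
      have h2 : ((2 * r : ℕ) : ℤ) • π g = 0 := by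
        push_cast
        rw [mul_smul, two_smul]
        nth_rewrite 1 [h1]
        exact neg_add_cancel _
      rw [natCast_zsmul, ← addOrderOf_dvd_iff_nsmul_eq_zero] at h2
      have := Nat.le_of_dvd (by omega) h2
      omega
    obtain ⟨x, hx, y, hy, z, hz, hxy, hxz, hyz⟩ : ∃ x ∈ T, ∃ y ∈ T, ∃ z ∈ T,
        x ≠ y ∧ x ≠ z ∧ y ≠ z := by
      have : 2 < T.card := by omega
      exact two_lt_card.1 this
    obtain ⟨A, hAB, hAm, h1, h2, h3⟩ := pick (cosets_neg K g r) (hTB hx) (hTB hy) (hTB hz)
      (fun h => hTn x hx x hx h.symm) (fun h => hTn y hy y hy h.symm) hxy.symm (hTn y hy x hx)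
      hxz.symm (hTn z hz x hx) hyz.symm (hTn z hz y hy) (card_le_four.trans hm4)
      (by rw [hcard, hK, show r + 1 = cdiv m d by omega]; exact hsl)
    apply final (cosets K g r) (cosets_neg K g r) _ A hAB hAm h1 h2 h3
    calc _ ≤ Nat.card K * (h * r + 1) := cosets_fold _ _ _ _
      _ = fval m h d := by rw [hK, fval_eq (by omega) hd0]
  · -- one coset
    have hc1 : cdiv m d = 1 := cdiv_eq_one (by omega) hmd
    rw [hc1, mul_one] at hsl
    obtain ⟨K, hK, x, hxK, hx⟩ : ∃ K : AddSubgroup G, Nat.card K = d ∧ ∃ x ∈ K, -x ≠ x := by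
      by_cases hj : ∃ j, d = 2 ^ j
      · obtain ⟨x, hx⟩ := h2 hmd hj
        obtain ⟨j, hj⟩ := hj
        have hj3 : 2 ≤ j := by
          by_contra hlt
          have : 2 ^ j ≤ 2 ^ 1 := Nat.pow_le_pow_right (by norm_num) (by omega)
          omega
        obtain ⟨K, hle, hK⟩ := exists_over (AddSubgroup.zmultiples x) d
          (by rw [Nat.card_zmultiples, hx, hj]
              exact pow_dvd_pow 2 hj3) hdn
        refine ⟨K, hK, x, hle (AddSubgroup.mem_zmultiples x), ?_⟩
        intro h
        have h1 : (2 : ℕ) • x = 0 := by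
          rw [two_nsmul]; nth_rewrite 1 [← h]; exact neg_add_cancel _
        have h3 := addOrderOf_dvd_of_nsmul_eq_zero h1
        rw [hx] at h3
        exact absurd h3 (by norm_num)
      · obtain ⟨K, hK⟩ := exists_subgroup_card _ G rfl d hdn
        refine ⟨K, hK, ?_⟩
        by_contra hcon
        push Not at hcon
        obtain ⟨j, hj'⟩ := pow_two_of_elementary K hcon
        exact hj ⟨j, by rw [← hK, hj']⟩
    obtain ⟨y, hyK, hyy, hyx, hynx, hy0⟩ := two_pairs K (by omega) x hxK hx
    have hx0 : x ≠ 0 := by rintro rfl; exact hx neg_zero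
    set B : Finset G := univ.filter (fun g => g ∈ K) with hB
    have memB : ∀ g, g ∈ B ↔ g ∈ K := by intro g; rw [hB, mem_filter]; simp
    have hBneg : ∀ b ∈ B, -b ∈ B := by
      intro b hb; rw [memB] at hb ⊢; exact K.neg_mem hb
    have hBcard : B.card = d := by rw [hB, card_filter_mem, hK]
    have hfold : hfold h B ⊆ B := by
      have : ∀ n, hfold n B ⊆ B := by
        intro n
        induction n with
        | zero =>
          intro w hw
          rw [hfold_zero, mem_singleton] at hw
          rw [memB, hw]; exact K.zero_mem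
        | succ n ih =>
          intro w hw
          rw [hfold_succ, mem_add] at hw
          obtain ⟨a, ha, b, hb, rfl⟩ := hw
          rw [memB] at ha ⊢
          exact K.add_mem ha ((memB b).1 (ih hb))
      exact this h
    have hcard3 : ({x, y, 0, -0} : Finset G).card ≤ m := by
      have : ({x, y, 0, -0} : Finset G) = {x, y, 0} := by
        rw [neg_zero]; ext w; simp
      rw [this]
      exact card_le_three.trans hm
    obtain ⟨A, hAB, hAm, h1, h2', h3⟩ := pick hBneg ((memB x).2 hxK) ((memB y).2 hyK)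
      ((memB 0).2 K.zero_mem) hx hyy hyx hynx hx0.symm
      (fun h => hx0 (neg_eq_zero.1 h.symm)) hy0.symm (fun h => hy0 (neg_eq_zero.1 h.symm))
      hcard3 (by rw [hBcard]; exact hsl)
    apply final B hBneg _ A hAB hAm h1 h2' h3
    rw [fval_of_le (by omega) hmd, ← hBcard]
    exact card_le_card hfold

/-- **Core theorem.** If every best divisor is realised, exceptional minimisers are classified. -/
theorem core {m h : ℕ} (hm : 2 ≤ m) (hmn : m ≤ Nat.card G) (hh : 2 ≤ h)
    (hr : ∀ d, IsBest (Nat.card G) m h d → Realised G m d) :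
    HasExceptionalMinimiser G m h ↔
      3 ≤ m ∧ ∃ d, IsBest (Nat.card G) m h d ∧ m + 2 ≤ d * cdiv m d ∧ TwoCond G m d := by
  constructor
  · obtain ⟨d0, hd0⟩ := exists_best (Nat.card G) m h Nat.card_pos
    exact forward hm hh ⟨d0, hd0, rho_eq (by omega) hmn hh hd0 ⟨d0, hd0, hr d0 hd0⟩⟩
  · rintro ⟨h3, d, hd, hsl, h2⟩
    exact backward h3 hh (rho_eq (by omega) hmn hh hd ⟨d, hd, hr d hd⟩).symm hsl (hr d hd) h2

end

end Pool.Agent.Helper25.SignedMin
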