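import Pool.Agent.Helper25.SignedMin.Defs
import Pool.Agent.Helper25.SignedMin.Fold

/-!
# Signed sumsets versus ordinary sumsets
-/

open Finset
open scoped Pointwise

namespace Pool.Agent.Helper25.SignedMin

section
open Classical

variable {G : Type*} [AddCommGroup G]

/-- Adding one unit in direction `a`. -/
lemma signed_step {A : Finset G} {a : G} (ha : a ∈ A) {c : G → ℤ} {w : ℤ}
    (hc : ∑ b ∈ A, |c b| = w) (t : ℤ) :
    ∑ b ∈ A, |Function.update c a t b| = w - |c a| + |t| ∧
    ∑ b ∈ A, Function.update c a t b • b = ∑ b ∈ A, c b • b + (t - c a) • a := by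
  constructor
  · rw [← add_sum_erase _ _ ha, ← hc, ← add_sum_erase A (fun b => |c b|) ha]
    have : ∑ x ∈ A.erase a, |Function.update c a t x| = ∑ x ∈ A.erase a, |c x| := by
      apply sum_congr rfl
      intro x hx
      rw [Function.update_of_ne (ne_of_mem_erase hx)]
    rw [this, Function.update_self]; ring
  · rw [← add_sum_erase _ _ ha, ← add_sum_erase A (fun b => c b • b) ha]
    have : ∑ x ∈ A.erase a, Function.update c a t x • x = ∑ x ∈ A.erase a, c x • x := by
      apply sum_congr rfl
      intro x hx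
      rw [Function.update_of_ne (ne_of_mem_erase hx)]
    rw [this, Function.update_self, sub_smul]
    abel

/-- The ordinary sumset lies in the signed sumset. -/
lemma hfold_subset_signed (h : ℕ) (A : Finset G) : ∀ x ∈ hfold h A, ∃ c : G → ℤ,
    (∀ a, 0 ≤ c a) ∧ (∑ a ∈ A, |c a| = (h : ℤ)) ∧ ∑ a ∈ A, c a • a = x := by
  induction h with
  | zero =>
    intro x hx
    rw [hfold_zero, mem_singleton] at hx
    exact ⟨fun _ => 0, fun _ => le_refl _, by simp, by simp [hx]⟩
  | succ h ih =>
    intro x hx
    rw [hfold_succ, mem_add] at hx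
    obtain ⟨a, ha, y, hy, rfl⟩ := hx
    obtain ⟨c, hc0, hc, hcy⟩ := ih y hy
    obtain ⟨h1, h2⟩ := signed_step ha hc (c a + 1)
    refine ⟨Function.update c a (c a + 1), ?_, ?_, ?_⟩
    · intro b
      by_cases hb : b = a
      · subst hb; rw [Function.update_self]; have := hc0 b; omega
      · rw [Function.update_of_ne hb]; exact hc0 b
    · rw [h1, abs_of_nonneg (hc0 a), abs_of_nonneg (by have := hc0 a; omega)]
      push_cast; ring
    · rw [h2, hcy]; simp [add_comm]

lemma zsmul_mem_hfold {B : Finset G} (hB : ∀ b ∈ B, -b ∈ B) {b : G} (hb : b ∈ B) (t : ℤ) :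
    t • b ∈ hfold t.natAbs B := by
  rcases le_total 0 t with ht | ht
  · have : t • b = t.natAbs • b := by
      rw [← natCast_zsmul, Int.natAbs_of_nonneg ht]
    rw [this]; exact nsmul_mem_hfold hb _
  · have : t • b = t.natAbs • (-b) := by
      rw [← natCast_zsmul, Int.ofNat_natAbs_of_nonpos ht]; simp
    rw [this]; exact nsmul_mem_hfold (hB b hb) _

/-- If `A ⊆ B` with `B` symmetric, the signed sumset of `A` lies in the sumset of `B`. -/
lemma signed_subset_hfold {A B : Finset G} (hB : ∀ b ∈ B, -b ∈ B) (hAB : A ⊆ B) (h : ℕ) :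
    signedSumset h A ⊆ (hfold h B : Set G) := by
  rintro x ⟨c, hc, rfl⟩
  have key : ∀ s : Finset G, s ⊆ B → ∑ a ∈ s, c a • a ∈ hfold (∑ a ∈ s, (c a).natAbs) B := by
    intro s
    induction s using Finset.induction_on with
    | empty => intro _; rw [sum_empty, sum_empty, hfold_zero, mem_singleton]
    | insert a s ha ih =>
      intro hs
      rw [sum_insert ha, sum_insert ha, hfold_add]
      exact add_mem_add (zsmul_mem_hfold hB (hs (mem_insert_self a s)) _)
        (ih (fun x hx => hs (mem_insert_of_mem hx)))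
  have h1 : ∑ a ∈ A, (c a).natAbs = h := by
    have : ((∑ a ∈ A, (c a).natAbs : ℕ) : ℤ) = (h : ℤ) := by
      push_cast
      rw [← hc]
    exact_mod_cast this
  have := key A hAB
  rw [h1] at this
  exact mem_coe.2 this

/-- Weight can be increased by two. -/
lemma signed_add_two {A : Finset G} (hA : ¬ IsAsymmetric A) {h : ℕ} {x : G}
    (hx : x ∈ signedSumset h A) : x ∈ signedSumset (h + 2) A := by
  unfold IsAsymmetric at hA
  push Not at hA
  obtain ⟨a, ha, hna⟩ := hA
  obtain ⟨c, hc, rfl⟩ := hx
  by_cases haa : -a = a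
  · -- `2a = 0`
    have h2a : (2 : ℤ) • a = 0 := by
      rw [two_zsmul]; nth_rewrite 1 [← haa]; exact neg_add_cancel a
    rcases le_total 0 (c a) with h0 | h0
    · obtain ⟨h1, h2⟩ := signed_step ha hc (c a + 2)
      refine ⟨_, h1.trans ?_, h2.trans ?_⟩
      · rw [abs_of_nonneg h0, abs_of_nonneg (by omega)]; push_cast; ring
      · have : c a + 2 - c a = 2 := by ring
        rw [this, h2a, add_zero]
    · obtain ⟨h1, h2⟩ := signed_step ha hc (c a - 2)
      refine ⟨_, h1.trans ?_, h2.trans ?_⟩
      · rw [abs_of_nonpos h0, abs_of_nonpos (by omega)]; push_cast; ring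
      · have : c a - 2 - c a = -2 := by ring
        rw [this, neg_smul, h2a, neg_zero, add_zero]
  · -- two different elements `a`, `-a`
    -- general move: replace `(c a, c (-a))` by `(s, t)`
    have move : ∀ s t : ℤ, s - t = c a - c (-a) → |s| + |t| = |c a| + |c (-a)| + 2 →
        ∑ b ∈ A, c b • b ∈ signedSumset (h + 2) A := by
      intro s t h1 h2
      obtain ⟨e1, e2⟩ := signed_step ha hc s
      obtain ⟨g1, g2⟩ := signed_step hna e1 t
      rw [Function.update_of_ne haa] at g1 g2
      refine ⟨_, g1.trans ?_, g2.trans ?_⟩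
      · push_cast; linarith
      · rw [e2, smul_neg, ← neg_smul, add_assoc, ← add_smul]
        have : s - c a + -(t - c (-a)) = 0 := by linarith
        rw [this, zero_smul, add_zero]
    rcases le_total 0 (c a) with h0 | h0 <;> rcases le_total 0 (c (-a)) with h1 | h1
    · apply move (c a + 1) (c (-a) + 1) (by ring)
      rw [abs_of_nonneg h0, abs_of_nonneg h1, abs_of_nonneg (by omega), abs_of_nonneg (by omega)]
      ring
    · apply move (c a - c (-a) + 1) 1 (by ring)
      rw [abs_of_nonneg h0, abs_of_nonpos h1, abs_of_nonneg (by omega), abs_of_nonneg (by omega)]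
      ring
    · apply move (c a - c (-a) - 1) (-1) (by ring)
      rw [abs_of_nonpos h0, abs_of_nonneg h1, abs_of_nonpos (by omega), abs_of_nonpos (by omega)]
      ring
    · apply move (c a - 1) (c (-a) - 1) (by ring)
      rw [abs_of_nonpos h0, abs_of_nonpos h1, abs_of_nonpos (by omega), abs_of_nonpos (by omega)]
      ring

/-- The sumset of `A ∪ (-A)` lies in the signed sumset of a set which is not asymmetric. -/
lemma hfold_sym_subset_signed {A B : Finset G} (hA : ¬ IsAsymmetric A)
    (hB : ∀ b ∈ B, b ∈ A ∨ -b ∈ A) (h : ℕ) : ∀ x ∈ hfold h B, x ∈ signedSumset h A := by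
  induction h with
  | zero =>
    intro x hx
    rw [hfold_zero, mem_singleton] at hx
    exact ⟨fun _ => 0, by simp, by simp [hx]⟩
  | succ h ih =>
    intro x hx
    rw [hfold_succ, mem_add] at hx
    obtain ⟨b, hb, y, hy, rfl⟩ := hx
    obtain ⟨c, hc, rfl⟩ := ih y hy
    -- `b = e • a` with `e = ± 1`
    obtain ⟨a, ha, e, he, rfl⟩ : ∃ a ∈ A, ∃ e : ℤ, (e = 1 ∨ e = -1) ∧ b = e • a := by
      rcases hB b hb with h1 | h1
      · exact ⟨b, h1, 1, Or.inl rfl, by simp⟩
      · exact ⟨-b, h1, -1, Or.inr rfl, by simp⟩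
    obtain ⟨h1, h2⟩ := signed_step ha hc (c a + e)
    have hval : ∑ b ∈ A, Function.update c a (c a + e) b • b
        = e • a + ∑ b ∈ A, c b • b := by
      rw [h2]
      have : c a + e - c a = e := by ring
      rw [this, add_comm]
    have hw : |c a + e| = |c a| + 1 ∨ (|c a + e| = |c a| - 1 ∧ 1 ≤ |c a|) := by
      rcases he with rfl | rfl
      · rcases le_or_gt 0 (c a) with h0 | h0
        · left; rw [abs_of_nonneg h0, abs_of_nonneg (by omega)]
        · right; rw [abs_of_neg h0, abs_of_nonpos (by omega)]; constructor <;> omega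
      · rcases le_or_gt (c a) 0 with h0 | h0
        · left; rw [abs_of_nonpos h0, abs_of_nonpos (by omega)]; ring
        · right; rw [abs_of_pos h0, abs_of_nonneg (by omega)]; constructor <;> omega
    rcases hw with hw | ⟨hw, hw1⟩
    · refine ⟨_, h1.trans ?_, hval⟩
      rw [hw]; push_cast; ring
    · have hle : |c a| ≤ (h : ℤ) := by
        rw [← hc]
        exact single_le_sum (f := fun b => |c b|) (fun b _ => abs_nonneg (c b)) ha
      obtain ⟨h', rfl⟩ : ∃ h', h = h' + 1 := ⟨h - 1, by omega⟩
      have : e • a + ∑ b ∈ A, c b • b ∈ signedSumset h' A := by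
        refine ⟨_, h1.trans ?_, hval⟩
        rw [hw]; push_cast; ring
      exact signed_add_two hA this

end

end Pool.Agent.Helper25.SignedMin
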